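import Pool.Agent.H49.LF.Bridge
import Pool.Agent.H33.RP.Id
import Pool.Agent.H33.RP.Ec
import Pool.Agent.H62.RC.Unsat

/-!
Unsatisfiable `k`-CNFs (`k ≥ 3`) with at most `2 ^ k n` clauses and linear polynomial calculus degree (helper49; from the operator of
Alekhnovich and Razborov, Pool/Agent/H33/RP/Id.lean, and the counts of H33 and H62).
-/

set_option autoImplicit false
open scoped Classical

namespace H49LF

open MajorityLifting

/-- Booleans as elements of `ZMod 2` -/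
def toZ (a : Bool) : ZMod 2 := if a then 1 else 0

/-- a `k`-clause as a set of literals -/
noncomputable def cl {n k : ℕ} (C : LovaszSchrijver.KClause n k) : Clause (Fin n) :=
  Finset.univ.image (fun i => (C.1 i, toZ (C.2 i)))

theorem mem_cl {n k : ℕ} (C : LovaszSchrijver.KClause n k) (l : Fin n × ZMod 2) :
    l ∈ cl C ↔ ∃ i, C.1 i = l.1 ∧ toZ (C.2 i) = l.2 := by
  unfold cl
  rw [Finset.mem_image]
  constructor
  · rintro ⟨i, _, rfl⟩
    exact ⟨i, rfl, rfl⟩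
  · rintro ⟨i, h1, h2⟩
    exact ⟨i, Finset.mem_univ i, Prod.ext h1 h2⟩

theorem card_cl {n k : ℕ} (C : LovaszSchrijver.KClause n k) : (cl C).card = k := by
  unfold cl
  rw [Finset.card_image_of_injective, Finset.card_univ, Fintype.card_fin]
  intro i j h
  exact C.1.injective (congrArg Prod.fst h)

theorem not_taut_cl {n k : ℕ} (C : LovaszSchrijver.KClause n k) : ¬ Taut (cl C) := by
  rintro ⟨v, h0, h1⟩
  obtain ⟨i, hi, hi'⟩ := (mem_cl C _).1 h0
  obtain ⟨j, hj, hj'⟩ := (mem_cl C _).1 h1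
  have hij : i = j := C.1.injective (hi.trans hj.symm)
  rw [hij] at hi'
  have h2 : (0 : ZMod 2) = 1 := hi'.symm.trans hj'
  exact absurd h2 (by decide)

theorem cS_cl {n k : ℕ} (C : LovaszSchrijver.KClause n k) : cS (cl C) = Finset.univ.image C.1 := by
  unfold cS cl
  rw [Finset.image_image]
  rfl

theorem holds_cl {n k : ℕ} (C : LovaszSchrijver.KClause n k) (x : Fin n → ZMod 2) :
    Clause.Holds (cl C) x ↔ C.toClause.Holds (fun i => decide (x i = 1)) := by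
  have h01 : ∀ (a : ZMod 2) (t : Bool), a = toZ t ↔ decide (a = 1) = t := by decide
  constructor
  · rintro ⟨l, hl, h⟩
    obtain ⟨i, h1, h2⟩ := (mem_cl C l).1 hl
    refine ⟨(C.1 i, C.2 i), ⟨i, rfl⟩, ?_⟩
    rw [← h1, ← h2] at h
    exact (h01 _ _).1 h
  · rintro ⟨_, ⟨i, rfl⟩, h⟩
    exact ⟨(C.1 i, toZ (C.2 i)), (mem_cl C _).2 ⟨i, rfl, rfl⟩, (h01 _ _).2 h⟩

/-- expansion gives a lower bound for the degree -/
theorem pc_lower {n k m B E : ℕ} (Φ : Fin m → LovaszSchrijver.KClause n k) (hS : H33RP.Exp (H33RP.SS Φ) B) (hk : k ≤ E)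
    (hE : 16 * E ≤ B) (hB : 1 ≤ B) : ¬ PC (Set.range fun j => cl (Φ j)) E (fun _ => 1) := by
  obtain ⟨K, h1, h2, h3⟩ := H33RP.ideal_exists (H33RP.SS Φ) (fun j => cσ (cl (Φ j))) hS
    (fun j => by
      have h4 := card_cS (cl (Φ j))
      rw [cS_cl, card_cl] at h4
      exact h4.trans hk) hE hB
  have hK : ∀ p : (Fin n → ZMod 2) → ZMod 2, PC (Set.range fun j => cl (Φ j)) E p → p ∈ K := by
    intro p hp
    induction hp with
    | ax C hC _ =>
      obtain ⟨j, rfl⟩ := hC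
      have h4 : (fun x : Fin n → ZMod 2 => if Clause.Holds (cl (Φ j)) x then (0 : ZMod 2) else 1) =
          H33RP.fal (H33RP.SS Φ j) (cσ (cl (Φ j))) := by
        funext x
        unfold H33RP.fal
        have h5 := holds_iff (not_taut_cl (Φ j)) x
        rw [cS_cl] at h5
        by_cases h6 : Clause.Holds (cl (Φ j)) x
        · rw [if_pos h6, if_neg]
          intro h7
          exact h5.2 h7 h6
        · rw [if_neg h6, if_pos]
          exact h5.1 h6
      show (fun x : Fin n → ZMod 2 => if Clause.Holds (cl (Φ j)) x then (0 : ZMod 2) else 1) ∈ K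
      rw [h4]
      exact h2 j
    | zero => exact K.zero_mem
    | add p q _ _ hp hq => exact K.add_mem hp hq
    | mul p d v _ hd hdE hp =>
      exact h1 p v d hp (DegLE_iff.1 hd) hdE
  intro hcon
  have h4 := hK _ hcon
  have hSpt : H33RP.Spt (H33RP.SS Φ) B ∅ = ∅ := by
    have h5 := H33RP.spt_card hS ∅ (by simp)
    rw [Finset.card_empty, mul_zero] at h5
    exact Finset.card_eq_zero.1 (Nat.le_zero.1 h5)
  have h5 : (fun _ => 1 : (Fin n → ZMod 2) → ZMod 2) = H33RP.mono ∅ := by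
    funext x
    unfold H33RP.mono
    rw [Finset.prod_empty]
  have h6 : (fun _ => 1 : (Fin n → ZMod 2) → ZMod 2) ∈ Submodule.span (ZMod 2)
      (H33RP.mono '' {T : Finset (Fin n) | T.card ≤ E ∧ H33RP.Spt (H33RP.SS Φ) B T = ∅}) := by
    rw [h5]
    exact Submodule.subset_span ⟨∅, ⟨by simp, hSpt⟩, rfl⟩
  have h7 := congrFun (h3 _ h6 h4) (fun _ => 0)
  exact absurd h7 (by
    show ¬ (1 : ZMod 2) = 0
    decide)

theorem exists_hard (k : ℕ) (hk : 3 ≤ k) :
    ∃ c n₀ : ℕ, 1 ≤ c ∧ ∀ n ≥ n₀, ∃ 𝒞 : Set (Clause (Fin n)), 𝒞.Finite ∧ 𝒞.ncard ≤ 2 ^ k * n ∧ (∀ C ∈ 𝒞, C.card = k) ∧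
      (∀ x : Fin n → ZMod 2, ∃ C ∈ 𝒞, ¬ Clause.Holds C x) ∧ ¬ PC 𝒞 (n / c) (fun _ => 1) := by
  obtain ⟨Δ, hΔ⟩ : ∃ Δ : ℕ, Δ = 2 ^ k := ⟨_, rfl⟩
  have hΔ1 : 1 ≤ Δ := by
    rw [hΔ]
    exact Nat.one_le_two_pow
  obtain ⟨β, hβ⟩ : ∃ β : ℕ, β = 32 * k * ((96 * k) ^ 2 * Δ) ^ 4 := ⟨_, rfl⟩
  have hβ1 : 1 ≤ β := by
    rw [hβ]
    exact Nat.mul_pos (by omega) (Nat.pow_pos (Nat.mul_pos (by positivity) hΔ1))
  obtain ⟨A, hA⟩ : ∃ A : ℕ, A = 12 * k * ((96 * k) ^ 2 * Δ) ^ 2 := ⟨_, rfl⟩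
  obtain ⟨n₀, hn₀⟩ : ∃ n₀ : ℕ, n₀ = 16 * β * k + 2 * k ^ 2 + 16 + (A + 2) := ⟨_, rfl⟩
  refine ⟨16 * β, n₀, by omega, fun n hn => ?_⟩
  obtain ⟨m, hm⟩ : ∃ m, m = Δ * n := ⟨_, rfl⟩
  obtain ⟨B, hB⟩ : ∃ B, B = n / β := ⟨_, rfl⟩
  have hEB : n / (16 * β) = B / 16 := by
    rw [hB, Nat.div_div_eq_div_mul, mul_comm]
  have hkE : k ≤ n / (16 * β) := by
    rw [Nat.le_div_iff_mul_le (by omega)]
    have : k * (16 * β) = 16 * β * k := by ring
    omega
  have h16 : 16 * (n / (16 * β)) ≤ B := by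
    rw [hEB]
    exact Nat.mul_div_le B 16
  obtain ⟨K, hK⟩ : ∃ K : ℕ, K = Fintype.card (LovaszSchrijver.KClause n k) := ⟨_, rfl⟩
  have e1 := H33RP.exp_count (n := n) (k := k) (m := m) (Δ := Δ) (B := B) hk hΔ1 (by omega) (le_of_eq hm)
    (by rw [← hβ, hB]; exact Nat.mul_div_le n β)
  have e2 := H62RC.unsat_count (n := n) (k := k) (m := m) (by omega) (by rw [hm, hΔ, mul_comm])
  rw [← hK, ← hA] at e1
  rw [← hK] at e2
  have hKpos : 0 < K := by
    rw [hK, Fintype.card_pos_iff]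
    have hkn : k ≤ n := by nlinarith
    exact ⟨(Fin.castLEEmb hkn, fun _ => true)⟩
  have hKm : 0 < K ^ m := Nat.pow_pos hKpos
  -- a good formula
  have hgood : ∃ Φ : Fin m → LovaszSchrijver.KClause n k, H33RP.Exp (H33RP.SS Φ) B ∧ ¬ LovaszSchrijver.Satisfiable Φ := by
    by_contra hcon
    push Not at hcon
    have hsub : (Finset.univ : Finset (Fin m → LovaszSchrijver.KClause n k)) ⊆
        Finset.univ.filter (fun Φ => ¬ H33RP.Exp (H33RP.SS Φ) B) ∪
          Finset.univ.filter (fun Φ => LovaszSchrijver.Satisfiable Φ) := by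
      intro Φ _
      rw [Finset.mem_union, Finset.mem_filter, Finset.mem_filter]
      by_cases h : H33RP.Exp (H33RP.SS Φ) B
      · exact Or.inr ⟨Finset.mem_univ _, hcon Φ h⟩
      · exact Or.inl ⟨Finset.mem_univ _, h⟩
    have h1 := (Finset.card_le_card hsub).trans (Finset.card_union_le _ _)
    rw [Finset.card_univ, Fintype.card_fun, Fintype.card_fin, ← hK] at h1
    have h2 := Nat.mul_le_mul_left n h1
    rw [Nat.mul_add] at h2
    have h3 : n * K ^ m ≤ (A + 1) * K ^ m := by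
      calc n * K ^ m ≤ A * K ^ m + K ^ m := h2.trans (Nat.add_le_add e1 e2)
        _ = (A + 1) * K ^ m := by ring
    have h4 := Nat.le_of_mul_le_mul_right h3 hKm
    omega
  obtain ⟨Φ, hΦ1, hΦ2⟩ := hgood
  refine ⟨Set.range fun j => cl (Φ j), Set.finite_range _, ?_, ?_, ?_, ?_⟩
  · have h1 : (Set.range fun j => cl (Φ j)).ncard ≤ m := by
      rw [← Set.image_univ]
      refine (Set.ncard_image_le Set.finite_univ).trans ?_
      rw [Set.ncard_univ, Nat.card_eq_fintype_card, Fintype.card_fin]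
    rw [← hΔ, ← hm]
    exact h1
  · rintro _ ⟨j, rfl⟩
    exact card_cl (Φ j)
  · intro x
    by_contra hcon
    push Not at hcon
    apply hΦ2
    refine ⟨fun i => decide (x i = 1), fun j => ?_⟩
    exact (holds_cl (Φ j) x).1 (hcon _ ⟨j, rfl⟩)
  · exact pc_lower Φ hΦ1 hkE h16 (by
      have : 1 ≤ n / (16 * β) := by omega
      omega)

end H49LF
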