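import Pool.Agent.H49.LD.Main

/-!
Lifting polynomial calculus degree to circuits with `D` levels: numbers and assembly (helper49).
`E' = (e + 1) w ^ (D - 1)`, `q = 1 - 1 / (2 E')`, so `q ^ (e w ^ k) ≥ 1/2` for `k < D`.
-/

set_option autoImplicit false
open scoped Classical

namespace H49LF

open H96RE MajorityLifting

theorem coreD {e f n k t b s c w D S m : ℕ} (𝒞 : Set (Clause (Fin n))) (hC : ∀ C ∈ 𝒞, C.card ≤ k)
    (hw1 : 1 ≤ w) (hD : 1 ≤ D) (hb : b = 2 * m + 1)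
    (hE1 : (f + 1) * (c * (s + e * w ^ D)) ≤ t) (hE2 : c * (s + e * w ^ D) + k ≤ t)
    (hPC : ¬ MajorityLifting.PC 𝒞 t (fun _ => 1)) (hR : CircuitRefutes b e D s c f 𝒞 S) :
    Real.exp (-(n * (2 * Real.exp (-(b / (32 * ((e + 1) * (w : ℝ) ^ (D - 1)) ^ 2)))))) ≤ S * (3 / 4 : ℝ) ^ w := by
  obtain ⟨C, N, L, hN, hlast, hdef, hl⟩ := hR
  obtain ⟨E', hE'⟩ : ∃ E' : ℕ, E' = (e + 1) * w ^ (D - 1) := ⟨_, rfl⟩
  have hE'1 : 1 ≤ E' := by
    rw [hE']
    exact Nat.mul_pos (Nat.succ_pos _) (Nat.pow_pos hw1)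
  have hE'R : (1 : ℝ) ≤ E' := by exact_mod_cast hE'1
  obtain ⟨q, hq⟩ : ∃ q : ℝ, q = 1 - 1 / (2 * E') := ⟨_, rfl⟩
  have hinv : (0 : ℝ) < 1 / (2 * E') := by positivity
  have hinv2 : (1 : ℝ) / (2 * E') ≤ 1 / 2 := by
    rw [div_le_div_iff₀ (by positivity) (by norm_num)]
    linarith
  have hq0 : 0 < q := by
    rw [hq]
    linarith
  have hq1 : q < 1 := by
    rw [hq]
    linarith
  have hqE : 1 / 2 ≤ q ^ E' := by
    have h1 := one_add_mul_le_pow (a := -(1 / (2 * (E' : ℝ)))) (by linarith) E'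
    have h2 : 1 + (E' : ℝ) * -(1 / (2 * E')) = 1 / 2 := by
      field_simp
      norm_num
    rw [h2] at h1
    rw [hq, sub_eq_add_neg]
    exact h1
  have hlev : ∀ j < D, e * w ^ j ≤ E' := by
    intro j hj
    rw [hE']
    exact Nat.mul_le_mul (Nat.le_succ e) (Nat.pow_le_pow_right hw1 (by omega))
  have hε : ∀ j < D, (1 - q ^ (e * w ^ j) / 2) ^ w ≤ (3 / 4 : ℝ) ^ w := by
    intro j hj
    have h1 : q ^ E' ≤ q ^ (e * w ^ j) := pow_le_pow_of_le_one hq0.le hq1.le (hlev j hj)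
    have h2 : q ^ (e * w ^ j) ≤ 1 := pow_le_one₀ hq0.le hq1.le
    exact pow_le_pow_left₀ (by linarith) (by linarith) w
  obtain ⟨c', hc'1, hc'2⟩ := circ_bridge C
  obtain ⟨ap, Er, h1, h2⟩ := H98DH.approx_gates c' (w := fun _ => w) (ee := fun j => e * w ^ j) (by rw [pow_zero, mul_one])
    (fun j _ => by rw [pow_succ, mul_assoc]) (fun _ => hw1) hq0.le hq1 hε
  obtain ⟨M, hM⟩ : ∃ M, M = s + e * w ^ D := ⟨_, rfl⟩
  have hap : ∀ g < S, ap g ∈ Pol (n * b) M := by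
    intro g hg
    refine Pol_mono ?_ (h1 g hg).1
    have h3 : e * w ^ (c'.lev g) ≤ e * w ^ D := Nat.mul_le_mul_left _ (Nat.pow_le_pow_right hw1 (c'.le g hg))
    show e * w ^ (c'.lev g) ≤ M
    omega
  have hch : ∀ i, ∃ a : (Fin (n * b) → ZMod 2) → ZMod 2, i < N → a ∈ Pol (n * b) (c * M) ∧
      ∀ z, (∀ g < S, z ∉ Er g) → indic {z | unfl z ∉ L i} z = a z := by
    intro i
    by_cases hi : i < N
    · obtain ⟨a, ha, hz⟩ := line_approx C (hdef i hi) ap hap (by omega)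
      refine ⟨a, fun _ => ⟨ha, fun z hzE => hz z fun g hg => ?_⟩⟩
      have h3 := h2 z hzE g hg
      rw [hc'2] at h3
      exact h3
    · exact ⟨0, fun h => absurd h hi⟩
  choose a ha using hch
  rw [← hM] at hE1 hE2
  have hyv : ∀ z : Fin (n * b) → ZMod 2, (fun i : Fin n => MajorityLifting.maj (fun j => unfl z (i, j))) = yv m z := by
    intro z
    funext i
    exact maj_eq hb _
  have hPC' := PC_bridge 𝒞 (fun C hC' => (hC C hC').trans (by omega)) hPC
  obtain ⟨A, hA⟩ : ∃ A : ℕ → Set (Fin (n * b) → ZMod 2), ∀ i, A i = {z | unfl z ∉ L i} := ⟨_, fun _ => rfl⟩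
  have hmain := keyL (n := n) (N := N) (M := S) (k := k) (m := c * M) (f := f) (E := t) (s := m) (b := b) hb
    (fun C : {C : MajorityLifting.Clause (Fin n) // C ∈ 𝒞 ∧ ¬ Taut C} => cS C.1)
    (fun C : {C : MajorityLifting.Clause (Fin n) // C ∈ 𝒞 ∧ ¬ Taut C} => cσ C.1)
    (fun C => (card_cS C.1).trans (hC C.1 C.2.1)) hq0 hq1 hPC' hE1 hE2 A a Er
    (fun i hi => (ha i hi).1)
    (fun i hi z hz => by
      rw [hA]
      exact (ha i hi).2 z hz)
    (fun i hi => by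
      rcases hl i hi with ⟨K, hK𝒞, hKi⟩ | ⟨J, hJ, hJi, himp⟩
      · by_cases hT : Taut K
        · refine Or.inr ⟨∅, by simp, by simp, fun x hx => ?_⟩
          exfalso
          rw [hA] at hx
          exact hx (hKi (unfl x) (taut_holds hT _))
        · refine Or.inl ⟨⟨K, hK𝒞, hT⟩, fun z hz => ?_⟩
          rw [hA] at hz
          have h3 : ¬ MajorityLifting.Clause.Holds K (fun i => MajorityLifting.maj (fun j => unfl z (i, j))) :=
            fun h4 => hz (hKi (unfl z) h4)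
          rw [hyv] at h3
          exact (holds_iff hT (yv m z)).1 h3
      · refine Or.inr ⟨J, hJ, hJi, fun x hx => ?_⟩
        by_contra hcon
        push Not at hcon
        rw [hA] at hx
        refine hx (himp (unfl x) fun j hj => ?_)
        have h3 := hcon j hj
        rw [hA] at h3
        exact not_not.1 h3)
    ⟨N - 1, by omega, by
      rw [hA, hlast]
      exact Set.eq_univ_of_forall fun z => Set.notMem_empty _⟩
  have hwt := wtq_main (n := n) hb hq0 hq1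
  have hsum : ∑ g ∈ Finset.range S, H96RX.Om (Fin (n * b) → ZMod 2) q (Er g) ≤
      S * ((3 / 4 : ℝ) ^ w * (1 + q) ^ (n * b)) := by
    calc _ ≤ ∑ _g ∈ Finset.range S, ((3 / 4 : ℝ) ^ w * (1 + q) ^ (n * b)) :=
          Finset.sum_le_sum fun g hg => (h1 g (Finset.mem_range.1 hg)).2
      _ = S * ((3 / 4 : ℝ) ^ w * (1 + q) ^ (n * b)) := by
          rw [Finset.sum_const, Finset.card_range, nsmul_eq_mul]
  have hpos : (0 : ℝ) < (1 + q) ^ (n * b) := pow_pos (by linarith) _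
  have hfin : (1 + q) ^ (n * b) * Real.exp (-(n * (2 * Real.exp (-(b * (1 - q) ^ 2 / 8))))) ≤
      (1 + q) ^ (n * b) * (S * (3 / 4 : ℝ) ^ w) := by
    refine hwt.trans (hmain.trans (hsum.trans (le_of_eq ?_)))
    ring
  have hfin2 := le_of_mul_le_mul_left hfin hpos
  have h5 : (b : ℝ) * (1 - q) ^ 2 / 8 = b / (32 * ((e + 1) * (w : ℝ) ^ (D - 1)) ^ 2) := by
    have h6 : ((e + 1) * (w : ℝ) ^ (D - 1)) = (E' : ℝ) := by
      rw [hE']
      push_cast
      ring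
    rw [h6, hq]
    field_simp
    ring
  rw [h5] at hfin2
  exact hfin2

theorem mainD {e f n k t b s c w D S K : ℕ} (hK : K = 32 * (e + 1) ^ 2 * ((f + 1) * (c + 1)))
    (𝒞 : Set (Clause (Fin n))) (hC : ∀ C ∈ 𝒞, C.card ≤ k) (hk : K * (k + 1) ≤ t) (hs : K * s ≤ t)
    (hwD : K * w ^ D ≤ t) (hD : 1 ≤ D) (hb : Odd b) (hn : K * n ≤ w * 2 ^ (b / (K * w ^ (2 * (D - 1)))))
    (hPC : ¬ MajorityLifting.PC 𝒞 t (fun _ => 1)) (hR : CircuitRefutes b e D s c f 𝒞 S) : 2 ^ (w / K) ≤ S := by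
  obtain ⟨m, hm⟩ := hb
  -- the degrees
  have hdeg : ∀ w' : ℕ, K * w' ^ D ≤ t → (f + 1) * (c * (s + e * w' ^ D)) ≤ t ∧ c * (s + e * w' ^ D) + k ≤ t := by
    intro w' hw'
    obtain ⟨x, hx⟩ : ∃ x, x = w' ^ D := ⟨_, rfl⟩
    rw [← hx] at hw' ⊢
    have h1 : 32 * ((f + 1) * c) ≤ K := by
      rw [hK]
      have h2 : (f + 1) * c ≤ (f + 1) * (c + 1) := Nat.mul_le_mul_left _ (Nat.le_succ c)
      have h3 : 1 ≤ (e + 1) ^ 2 := Nat.one_le_pow _ _ (Nat.succ_pos e)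
      calc 32 * ((f + 1) * c) ≤ 32 * 1 * ((f + 1) * (c + 1)) := by
            rw [mul_one]
            exact Nat.mul_le_mul_left _ h2
        _ ≤ 32 * (e + 1) ^ 2 * ((f + 1) * (c + 1)) := Nat.mul_le_mul_right _ (Nat.mul_le_mul_left _ h3)
    have h1' : 32 * ((f + 1) * c * e) ≤ K := by
      rw [hK]
      have h2 : (f + 1) * c ≤ (f + 1) * (c + 1) := Nat.mul_le_mul_left _ (Nat.le_succ c)
      have h3 : e ≤ (e + 1) ^ 2 := by nlinarith
      calc 32 * ((f + 1) * c * e) = 32 * e * ((f + 1) * c) := by ring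
        _ ≤ 32 * (e + 1) ^ 2 * ((f + 1) * (c + 1)) := Nat.mul_le_mul (Nat.mul_le_mul_left _ h3) h2
    have h4 : 32 * ((f + 1) * (c * s)) ≤ t := by
      calc 32 * ((f + 1) * (c * s)) = 32 * ((f + 1) * c) * s := by ring
        _ ≤ K * s := Nat.mul_le_mul_right _ h1
        _ ≤ t := hs
    have h5 : 32 * ((f + 1) * (c * (e * x))) ≤ t := by
      calc 32 * ((f + 1) * (c * (e * x))) = 32 * ((f + 1) * c * e) * x := by ring
        _ ≤ K * x := Nat.mul_le_mul_right _ h1'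
        _ ≤ t := hw'
    have h6 : 32 * k ≤ t := by
      refine le_trans ?_ hk
      have h7 : 32 ≤ K := by
        rw [hK]
        have h3 : 1 ≤ (e + 1) ^ 2 := Nat.one_le_pow _ _ (Nat.succ_pos e)
        have h8 : 1 ≤ (f + 1) * (c + 1) := Nat.mul_pos (Nat.succ_pos _) (Nat.succ_pos _)
        calc 32 = 32 * 1 * 1 := by norm_num
          _ ≤ 32 * (e + 1) ^ 2 * ((f + 1) * (c + 1)) := Nat.mul_le_mul (Nat.mul_le_mul_left _ h3) h8
      calc 32 * k ≤ K * k := Nat.mul_le_mul_right _ h7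
        _ ≤ K * (k + 1) := Nat.mul_le_mul_left _ (Nat.le_succ k)
    have h9 : (f + 1) * (c * (s + e * x)) = (f + 1) * (c * s) + (f + 1) * (c * (e * x)) := by ring
    have h10 : c * (s + e * x) ≤ (f + 1) * (c * (s + e * x)) := Nat.le_mul_of_pos_left _ (Nat.succ_pos f)
    constructor
    · omega
    · omega
  have hKpos : 32 * (e + 1) ^ 2 ≤ K := by
    rw [hK]
    exact Nat.le_mul_of_pos_right _ (Nat.mul_pos (Nat.succ_pos _) (Nat.succ_pos _))
  have hK32 : 32 ≤ K := by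
    have h3 : 1 ≤ (e + 1) ^ 2 := Nat.one_le_pow _ _ (Nat.succ_pos e)
    omega
  -- there is a gate
  have hS : 1 ≤ S := by
    have h0 : K * 1 ^ D ≤ t := by
      rw [one_pow, mul_one]
      exact le_trans (Nat.le_mul_of_pos_right _ (Nat.succ_pos k)) hk
    obtain ⟨h1, h2⟩ := hdeg 1 h0
    have h3 := coreD 𝒞 hC (le_refl 1) hD hm h1 h2 hPC hR
    by_contra hcon
    have hS0 : S = 0 := by omega
    rw [hS0, Nat.cast_zero, zero_mul] at h3
    exact absurd h3 (not_le.2 (Real.exp_pos _))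
  rcases Nat.eq_zero_or_pos w with hw0 | hw0
  · rw [hw0, Nat.zero_div, pow_zero]
    exact hS
  obtain ⟨h1, h2⟩ := hdeg w hwD
  have h3 := coreD 𝒞 hC hw0 hD hm h1 h2 hPC hR
  have hwR : (1 : ℝ) ≤ w := by exact_mod_cast hw0
  have hKR : (32 : ℝ) ≤ K := by exact_mod_cast hK32
  have hKR2 : 32 * ((e : ℝ) + 1) ^ 2 ≤ K := by exact_mod_cast hKpos
  obtain ⟨X, hX⟩ : ∃ X : ℝ, X = 32 * ((e + 1) * (w : ℝ) ^ (D - 1)) ^ 2 := ⟨_, rfl⟩
  rw [← hX] at h3
  have hXpos : 0 < X := by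
    rw [hX]
    positivity
  have hexp1 : (2 : ℝ) ≤ Real.exp 1 := by
    have := Real.add_one_le_exp (1 : ℝ)
    linarith
  -- the exponent
  have hη : 16 * (n : ℝ) * Real.exp (-(b / X)) ≤ w := by
    have h4 : (b / (K * w ^ (2 * (D - 1))) : ℕ) ≤ (b : ℝ) / X := by
      refine (Nat.cast_div_le).trans ?_
      have h5 : X ≤ ((K * w ^ (2 * (D - 1)) : ℕ) : ℝ) := by
        rw [hX]
        push_cast
        rw [mul_pow, ← pow_mul, mul_comm (D - 1) 2, ← mul_assoc]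
        exact mul_le_mul_of_nonneg_right hKR2 (by positivity)
      exact div_le_div_of_nonneg_left (Nat.cast_nonneg b) hXpos h5
    have h6 : ((2 : ℝ) ^ (b / (K * w ^ (2 * (D - 1))))) ≤ Real.exp (b / X) := by
      calc ((2 : ℝ) ^ (b / (K * w ^ (2 * (D - 1))))) ≤ Real.exp 1 ^ (b / (K * w ^ (2 * (D - 1)))) :=
            pow_le_pow_left₀ (by norm_num) hexp1 _
        _ = Real.exp ((b / (K * w ^ (2 * (D - 1))) : ℕ) : ℝ) := by
            rw [← Real.exp_nat_mul, mul_one]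
        _ ≤ Real.exp (b / X) := Real.exp_le_exp.2 h4
    have h7 : (K : ℝ) * n ≤ w * (2 : ℝ) ^ (b / (K * w ^ (2 * (D - 1)))) := by exact_mod_cast hn
    have h8 : 16 * (n : ℝ) ≤ w * Real.exp (b / X) := by
      have h9 : 16 * (n : ℝ) ≤ K * n := mul_le_mul_of_nonneg_right (by linarith) (Nat.cast_nonneg n)
      have h10 : (w : ℝ) * (2 : ℝ) ^ (b / (K * w ^ (2 * (D - 1)))) ≤ w * Real.exp (b / X) :=
        mul_le_mul_of_nonneg_left h6 (Nat.cast_nonneg w)
      linarith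
    have h11 : 16 * (n : ℝ) * Real.exp (-(b / X)) ≤ w * Real.exp (b / X) * Real.exp (-(b / X)) :=
      mul_le_mul_of_nonneg_right h8 (Real.exp_pos _).le
    refine h11.trans (le_of_eq ?_)
    rw [mul_assoc, ← Real.exp_add, add_neg_cancel, Real.exp_zero, mul_one]
  have h34 : (3 / 4 : ℝ) ^ w ≤ Real.exp (-(w / 4)) := by
    have h4 : (3 / 4 : ℝ) ≤ Real.exp (-(1 / 4)) := by
      have := Real.one_sub_le_exp_neg (1 / 4 : ℝ)
      linarith
    calc (3 / 4 : ℝ) ^ w ≤ Real.exp (-(1 / 4)) ^ w := pow_le_pow_left₀ (by norm_num) h4 w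
      _ = Real.exp (-(w / 4)) := by
          rw [← Real.exp_nat_mul]
          congr 1
          ring
  have h12 : Real.exp (-(w / 8)) ≤ S * Real.exp (-(w / 4)) := by
    have h13 : Real.exp (-(w / 8)) ≤ Real.exp (-(n * (2 * Real.exp (-(b / X))))) := by
      rw [Real.exp_le_exp]
      linarith
    exact h13.trans (h3.trans (mul_le_mul_of_nonneg_left h34 (Nat.cast_nonneg S)))
  have h14 : Real.exp (w / 8) ≤ S := by
    have h15 := mul_le_mul_of_nonneg_right h12 (Real.exp_pos (w / 4 : ℝ)).le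
    rw [← Real.exp_add, mul_assoc, ← Real.exp_add] at h15
    have h16 : -((w : ℝ) / 8) + w / 4 = w / 8 := by ring
    have h17 : -((w : ℝ) / 4) + w / 4 = 0 := by ring
    rw [h16, h17, Real.exp_zero, mul_one] at h15
    exact h15
  have h18 : ((2 : ℝ) ^ (w / K)) ≤ S := by
    refine le_trans ?_ h14
    calc (2 : ℝ) ^ (w / K) ≤ Real.exp 1 ^ (w / K) := pow_le_pow_left₀ (by norm_num) hexp1 _
      _ = Real.exp ((w / K : ℕ) : ℝ) := by
          rw [← Real.exp_nat_mul, mul_one]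
      _ ≤ Real.exp (w / 8) := by
          rw [Real.exp_le_exp]
          refine (Nat.cast_div_le).trans ?_
          exact div_le_div_of_nonneg_left (Nat.cast_nonneg w) (by norm_num) (by linarith)
  exact_mod_cast h18

end H49LF
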