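import Pool.Agent.H49.LF.Fam
import Pool.Agent.H96.RE.Approx

/-!
The multiplier argument of the lifting theorem with abstract approximations: lines `A i` (false sets) with approximants `a i` of degree `m`, correct
outside the union of the sets `Er g`, `g < M` (helper49; see H49_Lifting.md; same proof as in Pool/Agent/H49/LF/ThmL.lean).
-/

set_option autoImplicit false
open scoped Classical

namespace H49LF

open H96RE

private theorem Key_zmod (a : ZMod 2) : a = 0 ∨ a = 1 := by
  revert a
  decide

private theorem Key_union {n : ℕ} (D' : ℕ) (Er : ℕ → Set (Fin n → ZMod 2)) (N : ℕ) :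
    H96RX.rk (Fin n → ZMod 2) D' {x | ∃ i < N, x ∈ Er i} ≤
      ∑ i ∈ Finset.range N, H96RX.rk (Fin n → ZMod 2) D' (Er i) := by
  induction N with
  | zero =>
    have h1 : {x : Fin n → ZMod 2 | ∃ i < 0, x ∈ Er i} = ∅ := by
      ext x
      simp
    rw [h1, H96RX.rk_empty]
    exact Nat.zero_le _
  | succ N ih =>
    have h1 : {x : Fin n → ZMod 2 | ∃ i < N + 1, x ∈ Er i} = {x | ∃ i < N, x ∈ Er i} ∪ Er N := by
      ext x
      constructor
      · rintro ⟨i, hi, hx⟩
        rcases Nat.lt_succ_iff_lt_or_eq.1 hi with h | h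
        · exact Or.inl ⟨i, h, hx⟩
        · rw [h] at hx
          exact Or.inr hx
      · rintro (⟨i, hi, hx⟩ | hx)
        · exact ⟨i, hi.trans (Nat.lt_succ_self N), hx⟩
        · exact ⟨N, Nat.lt_succ_self N, hx⟩
    rw [h1, Finset.sum_range_succ]
    have h2 := H96RX.rk_submod (V := Fin n → ZMod 2) D' {x | ∃ i < N, x ∈ Er i} (Er N)
    omega

private theorem Key_exists {n N D' : ℕ} (G' : Finset (Finset (Fin n))) (hG' : ∀ T ∈ G', T.card ≤ D')
    (Er : ℕ → Set (Fin n → ZMod 2))
    (h : ∑ i ∈ Finset.range N, H96RX.rk (Fin n → ZMod 2) D' (Er i) < G'.card) :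
    ∃ φ ∈ Submodule.span (ZMod 2) (mono '' (G' : Set (Finset (Fin n)))), φ ≠ 0 ∧
      ∀ i < N, ∀ x ∈ Er i, φ x = 0 := by
  obtain ⟨X, hX⟩ : ∃ X : Submodule (ZMod 2) ((Fin n → ZMod 2) → ZMod 2),
      X = Submodule.span (ZMod 2) (mono '' (G' : Set (Finset (Fin n)))) := ⟨_, rfl⟩
  have hfX : Module.finrank (ZMod 2) X = G'.card := by
    have h1 : LinearIndependent (ZMod 2) (fun T : G' => mono (T : Finset (Fin n))) :=
      (mono_indep n).comp (fun T : G' => (T : Finset (Fin n))) Subtype.val_injective
    have h2 := finrank_span_eq_card h1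
    have h3 : Set.range (fun T : G' => mono (T : Finset (Fin n))) = mono '' (G' : Set (Finset (Fin n))) := by
      ext g
      constructor
      · rintro ⟨T, rfl⟩
        exact ⟨T.1, T.2, rfl⟩
      · rintro ⟨T, hT, rfl⟩
        exact ⟨⟨T, hT⟩, rfl⟩
    rw [h3, Fintype.card_coe] at h2
    rw [hX]
    exact h2
  have hXR : X ≤ H96RX.RM (Fin n → ZMod 2) D' := by
    rw [← Pol_eq_RM, hX]
    refine Submodule.span_le.2 ?_
    rintro _ ⟨T, hT, rfl⟩
    exact mono_mem (hG' T hT)
  obtain ⟨U, hU⟩ : ∃ U : Set (Fin n → ZMod 2), U = {x | ∃ i < N, x ∈ Er i} := ⟨_, rfl⟩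
  have h2 := Key_union D' Er N
  rw [← hU] at h2
  have h3 := H96RX.rk_add (V := Fin n → ZMod 2) D' U
  have h4 := Submodule.finrank_sup_add_finrank_inf_eq X (H96RX.RM (Fin n → ZMod 2) D' ⊓ H96RX.van U)
  have h5 : Module.finrank (ZMod 2) ↥(X ⊔ (H96RX.RM (Fin n → ZMod 2) D' ⊓ H96RX.van U)) ≤
      Module.finrank (ZMod 2) (H96RX.RM (Fin n → ZMod 2) D') :=
    Submodule.finrank_mono (sup_le hXR inf_le_left)
  have h6 : 0 < Module.finrank (ZMod 2) ↥(X ⊓ (H96RX.RM (Fin n → ZMod 2) D' ⊓ H96RX.van U)) := by
    omega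
  have h7 : X ⊓ (H96RX.RM (Fin n → ZMod 2) D' ⊓ H96RX.van U) ≠ ⊥ := by
    intro h8
    rw [h8, finrank_bot] at h6
    exact lt_irrefl _ h6
  obtain ⟨φ, hφ, hφ0⟩ := Submodule.exists_mem_ne_zero_of_ne_bot h7
  refine ⟨φ, ?_, hφ0, fun i hi x hx => ?_⟩
  · rw [← hX]
    exact hφ.1
  · exact hφ.2.2 x (by rw [hU]; exact ⟨i, hi, hx⟩)

private theorem Key_tsum {q : ℝ} (h0 : 0 < q) (h1 : q < 1) {α : Type} (G : Finset α) (c : α → ℕ) :
    Summable (fun D : ℕ => q ^ D * (((G.filter (fun T => c T ≤ D)).card : ℕ) : ℝ)) ∧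
      (1 - q) * ∑' D : ℕ, q ^ D * (((G.filter (fun T => c T ≤ D)).card : ℕ) : ℝ) = ∑ T ∈ G, q ^ c T := by
  have hg := summable_geometric_of_lt_one h0.le h1
  have hterm : ∀ T : α, HasSum (fun D : ℕ => if c T ≤ D then q ^ D else 0) (q ^ c T * (1 - q)⁻¹) := by
    intro T
    have h2 : HasSum (fun D : ℕ => q ^ c T * q ^ D) (q ^ c T * (1 - q)⁻¹) :=
      (hasSum_geometric_of_lt_one h0.le h1).mul_left _
    have h3 : (fun D : ℕ => q ^ c T * q ^ D) = (fun D : ℕ => if c T ≤ D + c T then q ^ (D + c T) else 0) := by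
      funext D
      rw [if_pos (Nat.le_add_left _ _), pow_add, mul_comm]
    rw [h3] at h2
    have h4 := (hasSum_nat_add_iff (f := fun D : ℕ => if c T ≤ D then q ^ D else 0) (c T)).1 h2
    have h5 : ∑ i ∈ Finset.range (c T), (if c T ≤ i then q ^ i else 0) = 0 :=
      Finset.sum_eq_zero fun i hi => if_neg (not_le.2 (Finset.mem_range.1 hi))
    rw [h5, add_zero] at h4
    exact h4
  have hsum : HasSum (fun D : ℕ => ∑ T ∈ G, if c T ≤ D then q ^ D else 0) (∑ T ∈ G, q ^ c T * (1 - q)⁻¹) :=
    hasSum_sum fun T _ => hterm T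
  have heq : (fun D : ℕ => ∑ T ∈ G, if c T ≤ D then q ^ D else 0) =
      (fun D : ℕ => q ^ D * (((G.filter (fun T => c T ≤ D)).card : ℕ) : ℝ)) := by
    funext D
    rw [← Finset.sum_filter, Finset.sum_const, nsmul_eq_mul, mul_comm]
  rw [heq] at hsum
  refine ⟨hsum.summable, ?_⟩
  rw [hsum.tsum_eq, ← Finset.sum_mul]
  have h3 : (1 - q) ≠ 0 := by
    have : (0 : ℝ) < 1 - q := by linarith
    exact this.ne'
  rw [mul_comm, mul_assoc, inv_mul_cancel₀ h3, mul_one]

theorem keyL {n N M k m f E s b : ℕ} {ι : Type} (hb : b = 2 * s + 1) (S : ι → Finset (Fin n)) (σ : ι → Fin n → ZMod 2)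
    (hk : ∀ j, (S j).card ≤ k) {q : ℝ} (h0 : 0 < q) (h1 : q < 1) (hPC : (fun _ => (1 : ZMod 2)) ∉ PC S σ E)
    (hE1 : (f + 1) * m ≤ E) (hE2 : m + k ≤ E)
    (A : ℕ → Set (Fin (n * b) → ZMod 2)) (a : ℕ → (Fin (n * b) → ZMod 2) → ZMod 2) (Er : ℕ → Set (Fin (n * b) → ZMod 2))
    (ha : ∀ i < N, a i ∈ Pol (n * b) m)
    (haE : ∀ i < N, ∀ x, (∀ g < M, x ∉ Er g) → indic (A i) x = a i x)
    (hline : ∀ i < N, (∃ j, ∀ z ∈ A i, yv s z ∈ falseSet (S j) (σ j)) ∨
      ∃ K : Finset ℕ, K.card ≤ f ∧ (∀ j ∈ K, j < i) ∧ ∀ x ∈ A i, ∃ j ∈ K, x ∈ A j)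
    (hlast : ∃ i < N, A i = Set.univ) :
    ∑ T ∈ Finset.univ.filter (fun T : Finset (Fin (n * b)) => T ∈ TT n b s), q ^ T.card ≤
      ∑ g ∈ Finset.range M, H96RX.Om (Fin (n * b) → ZMod 2) q (Er g) := by
  -- the key step
  have key : ∀ g ∈ Submodule.span (ZMod 2) (mono '' TT n b s), (∀ l < M, ∀ x ∈ Er l, g x = 0) → g = 0 := by
    intro g hgX hgE
    have heq : ∀ i < N, g * indic (A i) = g * a i := by
      intro i hi
      funext x
      rw [Pi.mul_apply, Pi.mul_apply]
      by_cases hx : g x = 0
      · rw [hx, zero_mul, zero_mul]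
      · rw [haE i hi x fun l hl hxl => hx (hgE l hl x hxl)]
    have hPol : ∀ i < N, g * a i ∈ FF s (Pol n m) := by
      intro i hi
      have h2 := FF_mul_Pol hb (span_le_FF hb hgX) (ha i hi)
      rw [zero_add] at h2
      exact h2
    have hinf : ∀ i < N, ∀ a' : ℕ, g * a i ∈ FF s (PC S σ E ⊓ Pol n a') → g * a i ∈ FF s (PC S σ E ⊓ Pol n m) := by
      intro i hi a' h2 x
      exact ⟨(h2 x).1, hPol i hi x⟩
    have hPCm : ∀ i, i < N → g * a i ∈ FF s (PC S σ E ⊓ Pol n m) := by
      intro i
      induction i using Nat.strong_induction_on with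
      | _ i ih =>
        intro hi
        rcases hline i hi with ⟨j, hj⟩ | ⟨K, hK, hKi, hcov⟩
        · have h2 : g * a i = fun z => indic (falseSet (S j) (σ j)) (yv s z) * (g * a i) z := by
            funext z
            rw [← heq i hi, Pi.mul_apply]
            unfold indic
            by_cases hz : z ∈ A i
            · rw [if_pos hz, if_pos (hj z hz), one_mul]
            · rw [if_neg hz, mul_zero, mul_zero]
          have h3 := FF_axiom (S := S) (σ := σ) hb (hk j) (hPol i hi) hE2
          rw [← h2] at h3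
          exact hinf i hi _ h3
        · -- the product over the premises
          have hQ : ∀ K' : Finset ℕ, (∀ j ∈ K', j < i) →
              (∏ j ∈ K', (1 + a j)) ∈ Pol (n * b) (m * K'.card) := by
            intro K'
            induction K' using Finset.induction_on with
            | empty =>
              intro _
              rw [Finset.prod_empty]
              exact const_mem 1
            | insert j K' hjK ihK =>
              intro hlt
              rw [Finset.prod_insert hjK, Finset.card_insert_of_notMem hjK, Nat.mul_succ, add_comm (m * K'.card) m]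
              have hjN : j < N := (hlt j (Finset.mem_insert_self j K')).trans hi
              refine Pol_mul (Submodule.add_mem _ (const_mem 1) (ha j hjN)) ?_
              exact ihK fun l hl => hlt l (Finset.mem_insert_of_mem hl)
          have hstep : ∀ K' : Finset ℕ, (∀ j ∈ K', j < i) → K'.card ≤ f →
              g * a i * (1 + ∏ j ∈ K', (1 + a j)) ∈ FF s (PC S σ E) := by
            intro K'
            induction K' using Finset.induction_on with
            | empty =>
              intro _ _
              have h3 : g * a i * (1 + ∏ j ∈ (∅ : Finset ℕ), (1 + a j)) = 0 := by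
                funext x
                have h4 : (1 : ZMod 2) + 1 = 0 := by decide
                rw [Finset.prod_empty]
                simp only [Pi.mul_apply, Pi.add_apply, Pi.one_apply, Pi.zero_apply, h4, mul_zero]
              rw [h3]
              exact Submodule.zero_mem _
            | insert j K' hjK ihK =>
              intro hlt hcard
              rw [Finset.card_insert_of_notMem hjK] at hcard
              have hji : j < i := hlt j (Finset.mem_insert_self j K')
              have hjN : j < N := hji.trans hi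
              have hlt' : ∀ l ∈ K', l < i := fun l hl => hlt l (Finset.mem_insert_of_mem hl)
              have h3 : g * a i * (1 + ∏ l ∈ insert j K', (1 + a l)) =
                  g * a i * (1 + ∏ l ∈ K', (1 + a l)) + g * a j * (a i * ∏ l ∈ K', (1 + a l)) := by
                rw [Finset.prod_insert hjK]
                ring
              rw [h3]
              refine Submodule.add_mem _ (ihK hlt' (by omega)) ?_
              have h6 : g * a j * (a i * ∏ l ∈ K', (1 + a l)) ∈ FF s (PC S σ E ⊓ Pol n (m + (m + m * K'.card))) := by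
                refine FF_mul_PC hb (ih j hji hjN) (Pol_mul (ha i hi) (hQ K' hlt')) ?_
                have h4 : m * K'.card + m ≤ m * f := by
                  rw [← Nat.mul_succ]
                  exact Nat.mul_le_mul_left _ hcard
                have h5 : (f + 1) * m = m * f + m := by ring
                omega
              exact FF_mono inf_le_left h6
          have h3 : g * a i = g * a i * (1 + ∏ j ∈ K, (1 + a j)) := by
            funext x
            by_cases hφx : g x = 0
            · simp only [Pi.mul_apply, hφx, zero_mul]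
            · have hEr : ∀ l < M, x ∉ Er l := fun l hl hx => hφx (hgE l hl x hx)
              simp only [Pi.mul_apply, Pi.add_apply, Pi.one_apply, Finset.prod_apply]
              rw [← haE i hi x hEr]
              by_cases hx : x ∈ A i
              · obtain ⟨j, hj, hxj⟩ := hcov x hx
                have hjN : j < N := (hKi j hj).trans hi
                have h4 : (1 : ZMod 2) + a j x = 0 := by
                  rw [← haE j hjN x hEr]
                  unfold indic
                  rw [if_pos hxj]
                  decide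
                rw [Finset.prod_eq_zero hj h4, add_zero, mul_one]
              · have h4 : indic (A i) x = 0 := if_neg hx
                rw [h4, mul_zero, zero_mul]
          have h7 := hstep K hKi hK
          rw [← h3] at h7
          intro x
          exact ⟨h7 x, hPol i hi x⟩
    obtain ⟨i, hi, hAi⟩ := hlast
    have h2 : g * a i = g := by
      rw [← heq i hi]
      funext x
      rw [Pi.mul_apply]
      unfold indic
      rw [if_pos (by rw [hAi]; exact Set.mem_univ x), mul_one]
    have h3 : g ∈ FF s (PC S σ E) := by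
      rw [← h2]
      exact FF_mono inf_le_left (hPCm i hi)
    exact FF_zero hb hPC hgX h3
  -- counting
  obtain ⟨G, hG⟩ : ∃ G : Finset (Finset (Fin (n * b))), G = Finset.univ.filter (fun T : Finset (Fin (n * b)) => T ∈ TT n b s) :=
    ⟨_, rfl⟩
  have hGm : ∀ T, T ∈ G → T ∈ TT n b s := by
    intro T hT
    rw [hG, Finset.mem_filter] at hT
    exact hT.2
  rw [← hG]
  have claim : ∀ D : ℕ, (G.filter (fun T => T.card ≤ D)).card ≤
      ∑ i ∈ Finset.range M, H96RX.rk (Fin (n * b) → ZMod 2) D (Er i) := by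
    intro D
    by_contra hcon
    obtain ⟨φ, hφX, hφ0, hφE⟩ := Key_exists (G.filter (fun T => T.card ≤ D))
      (fun T hT => (Finset.mem_filter.1 hT).2) Er (not_le.1 hcon)
    refine hφ0 (key φ ?_ hφE)
    refine (Submodule.span_mono (Set.image_mono ?_)) hφX
    intro T hT
    exact hGm T (Finset.mem_filter.1 (Finset.mem_coe.1 hT)).1
  obtain ⟨hs1, hs2⟩ := Key_tsum h0 h1 G (fun T => T.card)
  rw [← hs2]
  have hsE : ∀ i ∈ Finset.range M, Summable (fun D : ℕ => q ^ D * (H96RX.rk (Fin (n * b) → ZMod 2) D (Er i) : ℝ)) :=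
    fun i _ => H96RX.om_summable h0.le h1 (Er i)
  have h4 : ∑' D : ℕ, q ^ D * (((G.filter (fun T => T.card ≤ D)).card : ℕ) : ℝ) ≤
      ∑' D : ℕ, ∑ i ∈ Finset.range M, q ^ D * (H96RX.rk (Fin (n * b) → ZMod 2) D (Er i) : ℝ) := by
    refine Summable.tsum_le_tsum (fun D => ?_) hs1 (summable_sum hsE)
    rw [← Finset.mul_sum]
    refine mul_le_mul_of_nonneg_left ?_ (pow_nonneg h0.le D)
    exact_mod_cast claim D
  rw [Summable.tsum_finsetSum hsE] at h4
  have h5 : (0 : ℝ) ≤ 1 - q := by linarith
  refine (mul_le_mul_of_nonneg_left h4 h5).trans ?_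
  rw [Finset.mul_sum]
  refine le_of_eq (Finset.sum_congr rfl fun i _ => ?_)
  rfl

end H49LF
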