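import Pool.Agent.H49.LF.Wt

/-!
The weight of the index set for general `0 < q < 1` (helper49).  With `η = exp (- b (1-q)^2 / 8)`:
`(1 + q) ^ b * exp (-2 η) ≤ ∑_(|U| ≤ s) q ^ |U|`, `b = 2 s + 1`.
-/

set_option autoImplicit false
open scoped Classical

namespace H49LF

private theorem Wtq_all (b : ℕ) (q : ℝ) : ∑ U : Finset (Fin b), q ^ U.card = (1 + q) ^ b := by
  have h := Fintype.sum_pow_mul_eq_add_pow (Fin b) q (1 : ℝ)
  simp only [one_pow, mul_one, Fintype.card_fin] at h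
  rw [h, add_comm]

private theorem Wtq_split (b s : ℕ) (q : ℝ) :
    ∑ U ∈ Finset.univ.filter (fun U : Finset (Fin b) => U.card ≤ s), q ^ U.card +
      ∑ U ∈ Finset.univ.filter (fun U : Finset (Fin b) => ¬ U.card ≤ s), q ^ U.card = (1 + q) ^ b := by
  rw [Finset.sum_filter_add_sum_filter_not, Wtq_all]

private theorem Wtq_half {b s : ℕ} (hb : b = 2 * s + 1) {q : ℝ} (h0 : 0 < q) (h1 : q < 1) :
    ∑ U ∈ Finset.univ.filter (fun U : Finset (Fin b) => ¬ U.card ≤ s), q ^ U.card ≤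
      ∑ U ∈ Finset.univ.filter (fun U : Finset (Fin b) => U.card ≤ s), q ^ U.card := by
  have h2 : ∑ U ∈ Finset.univ.filter (fun U : Finset (Fin b) => ¬ U.card ≤ s), q ^ U.card =
      ∑ U ∈ Finset.univ.filter (fun U : Finset (Fin b) => U.card ≤ s), q ^ (Uᶜ).card := by
    refine Finset.sum_bij' (fun U _ => Uᶜ) (fun U _ => Uᶜ) ?_ ?_ ?_ ?_ ?_
    · intro U hU
      rw [Finset.mem_filter] at hU ⊢
      refine ⟨Finset.mem_univ _, ?_⟩
      rw [Finset.card_compl, Fintype.card_fin]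
      omega
    · intro U hU
      rw [Finset.mem_filter] at hU ⊢
      refine ⟨Finset.mem_univ _, ?_⟩
      rw [Finset.card_compl, Fintype.card_fin]
      omega
    · intro U _
      exact compl_compl U
    · intro U _
      exact compl_compl U
    · intro U _
      rw [compl_compl]
  rw [h2]
  refine Finset.sum_le_sum fun U hU => ?_
  have h3 := (Finset.mem_filter.1 hU).2
  refine pow_le_pow_of_le_one h0.le h1.le ?_
  rw [Finset.card_compl, Fintype.card_fin]
  omega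

private theorem Wtq_tail {b s : ℕ} (hb : b = 2 * s + 1) {q : ℝ} (h0 : 0 < q) (h1 : q < 1) :
    ∑ U ∈ Finset.univ.filter (fun U : Finset (Fin b) => ¬ U.card ≤ s), q ^ U.card ≤
      (1 + q) ^ b * Real.exp (-(b * (1 - q) ^ 2 / 8)) := by
  have h2 : ∑ U ∈ Finset.univ.filter (fun U : Finset (Fin b) => ¬ U.card ≤ s), q ^ U.card ≤ 2 ^ b * q ^ (s + 1) := by
    calc _ ≤ ∑ _U ∈ Finset.univ.filter (fun U : Finset (Fin b) => ¬ U.card ≤ s), q ^ (s + 1) := by
          refine Finset.sum_le_sum fun U hU => ?_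
          have h3 := (Finset.mem_filter.1 hU).2
          exact pow_le_pow_of_le_one h0.le h1.le (by omega)
      _ = ((Finset.univ.filter (fun U : Finset (Fin b) => ¬ U.card ≤ s)).card : ℝ) * q ^ (s + 1) := by
          rw [Finset.sum_const, nsmul_eq_mul]
      _ ≤ 2 ^ b * q ^ (s + 1) := by
          refine mul_le_mul_of_nonneg_right ?_ (pow_nonneg h0.le _)
          have h4 := Finset.card_filter_le (Finset.univ : Finset (Finset (Fin b))) (fun U => ¬ U.card ≤ s)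
          rw [Finset.card_univ, Fintype.card_finset, Fintype.card_fin] at h4
          exact_mod_cast h4
  refine h2.trans ?_
  obtain ⟨y, hy⟩ : ∃ y : ℝ, y = Real.exp (-((1 - q) ^ 2 / 8)) := ⟨_, rfl⟩
  have hyb : Real.exp (-(b * (1 - q) ^ 2 / 8)) = y ^ b := by
    rw [hy, ← Real.exp_nat_mul]
    congr 1
    ring
  have hq1 : (0 : ℝ) < 1 + q := by linarith
  -- the two estimates
  have e1 : 2 * q ≤ (1 + q) * y := by
    have h3 : 1 - (1 - q) ^ 2 / 8 ≤ y := by
      rw [hy]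
      have := Real.one_sub_le_exp_neg ((1 - q) ^ 2 / 8)
      linarith
    have h4 : (1 + q) * (1 - (1 - q) ^ 2 / 8) ≤ (1 + q) * y := mul_le_mul_of_nonneg_left h3 hq1.le
    nlinarith
  have e2 : 4 * q ≤ ((1 + q) * y) ^ 2 := by
    have h3 : 1 - (1 - q) ^ 2 / 4 ≤ y ^ 2 := by
      rw [hy, ← Real.exp_nat_mul]
      have h5 : ((2 : ℕ) : ℝ) * -((1 - q) ^ 2 / 8) = -((1 - q) ^ 2 / 4) := by
        push_cast
        ring
      rw [h5]
      have := Real.one_sub_le_exp_neg ((1 - q) ^ 2 / 4)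
      linarith
    have h4 : (1 + q) ^ 2 * (1 - (1 - q) ^ 2 / 4) ≤ (1 + q) ^ 2 * y ^ 2 := mul_le_mul_of_nonneg_left h3 (by positivity)
    have h6 : 4 * q ≤ (1 + q) ^ 2 * (1 - (1 - q) ^ 2 / 4) := by
      have h7 : (1 + q) ^ 2 * (1 - (1 - q) ^ 2 / 4) - 4 * q = (1 - q) ^ 2 * (1 - (1 + q) ^ 2 / 4) := by ring
      have h8 : (1 + q) ^ 2 ≤ 4 := by nlinarith
      have h9 : 0 ≤ (1 - q) ^ 2 * (1 - (1 + q) ^ 2 / 4) := mul_nonneg (sq_nonneg _) (by linarith)
      linarith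
    rw [mul_pow]
    linarith
  have hy0 : 0 < y := by
    rw [hy]
    exact Real.exp_pos _
  have hpos : 0 ≤ (1 + q) * y := (mul_pos hq1 hy0).le
  rw [hyb, ← mul_pow]
  have h3 : (2 : ℝ) ^ b * q ^ (s + 1) = (4 * q) ^ s * (2 * q) := by
    have h5 : (2 : ℝ) ^ (2 * s + 1) = 4 ^ s * 2 := by
      rw [pow_succ, pow_mul]
      norm_num
    rw [hb, h5, pow_succ, mul_pow]
    ring
  have h4 : ((1 + q) * y) ^ b = (((1 + q) * y) ^ 2) ^ s * ((1 + q) * y) := by
    rw [hb, pow_succ, pow_mul]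
  rw [h3, h4]
  exact mul_le_mul (pow_le_pow_left₀ (by linarith) e2 s) e1 (by linarith) (by positivity)

theorem wtq_low {b s : ℕ} (hb : b = 2 * s + 1) {q : ℝ} (h0 : 0 < q) (h1 : q < 1) :
    (1 + q) ^ b * Real.exp (-(2 * Real.exp (-(b * (1 - q) ^ 2 / 8)))) ≤
      ∑ U ∈ Finset.univ.filter (fun U : Finset (Fin b) => U.card ≤ s), q ^ U.card := by
  have hs := Wtq_split b s q
  have hh := Wtq_half hb h0 h1
  have ht := Wtq_tail hb h0 h1
  obtain ⟨η, hη⟩ : ∃ η : ℝ, η = Real.exp (-(b * (1 - q) ^ 2 / 8)) := ⟨_, rfl⟩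
  rw [← hη] at ht ⊢
  have hη0 : 0 < η := by
    rw [hη]
    exact Real.exp_pos _
  have hpow : (0 : ℝ) < (1 + q) ^ b := pow_pos (by linarith) b
  have hexp : Real.exp (-(2 * η)) ≤ (1 + 2 * η)⁻¹ := by
    rw [Real.exp_neg]
    exact inv_anti₀ (by linarith) (by have := Real.add_one_le_exp (2 * η); linarith)
  by_cases hc : η ≤ 1 / 2
  · have h2 : Real.exp (-(2 * η)) ≤ 1 - η := by
      refine hexp.trans ?_
      rw [inv_le_iff_one_le_mul₀ (by linarith)]
      nlinarith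
    have h3 := mul_le_mul_of_nonneg_left h2 hpow.le
    linarith
  · push Not at hc
    have h2 : Real.exp (-(2 * η)) ≤ 1 / 2 := by
      refine hexp.trans ?_
      rw [inv_le_comm₀ (by linarith) (by norm_num)]
      norm_num
      linarith
    have h3 := mul_le_mul_of_nonneg_left h2 hpow.le
    linarith

theorem wtq_main {n b s : ℕ} (hb : b = 2 * s + 1) {q : ℝ} (h0 : 0 < q) (h1 : q < 1) :
    (1 + q) ^ (n * b) * Real.exp (-(n * (2 * Real.exp (-(b * (1 - q) ^ 2 / 8))))) ≤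
      ∑ T ∈ Finset.univ.filter (fun T : Finset (Fin (n * b)) => T ∈ TT n b s), q ^ T.card := by
  rw [wt_eq]
  have h2 := wtq_low hb h0 h1
  have h3 : (1 + q) ^ (n * b) * Real.exp (-(n * (2 * Real.exp (-(b * (1 - q) ^ 2 / 8))))) =
      ((1 + q) ^ b * Real.exp (-(2 * Real.exp (-(b * (1 - q) ^ 2 / 8))))) ^ n := by
    rw [mul_pow, ← pow_mul, mul_comm b n, ← Real.exp_nat_mul]
    congr 2
    ring
  rw [h3]
  exact pow_le_pow_left₀ (mul_nonneg (pow_nonneg (by linarith) _) (Real.exp_pos _).le) h2 n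

end H49LF
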