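import Pool.Agent.H49.LD.Stmt
import Pool.Agent.H49.LD.Key
import Pool.Agent.H49.LD.Wt
import Pool.Agent.H49.LF.Bridge
import Pool.Agent.H98.DH.AP

/-!
Lifting polynomial calculus degree to circuits with `D` levels (helper49).
-/

set_option autoImplicit false
open scoped Classical

namespace H49LF

open H96RE MajorityLifting

theorem isPar_bridge {n b e : ℕ} {G : ℕ → Pt (Fin n × Fin b) → ZMod 2} {I : Set ℕ} {h : Pt (Fin n × Fin b) → ZMod 2}
    (hh : IsPar e G I h) :
    (fun z : Fin (n * b) → ZMod 2 => h (unfl z)) ∈ H98DH.Par e (fun g z => G g (unfl z)) I := by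
  obtain ⟨p, hp, J, hJ, hx⟩ := hh
  have h1 : (fun z : Fin (n * b) → ZMod 2 => h (unfl z)) =
      (fun z => p (unfl z)) + ∑ j ∈ J, fun z => G j (unfl z) := by
    funext z
    rw [Pi.add_apply, Finset.sum_apply]
    exact hx (unfl z)
  rw [h1]
  unfold H98DH.Par
  refine Submodule.add_mem_sup (DegLE_flat hp) (Submodule.sum_mem _ fun j hj => ?_)
  exact Submodule.subset_span ⟨j, hJ j hj, rfl⟩

theorem circ_bridge {n b e D S : ℕ} (C : Circuit (Fin n × Fin b) e D S) :
    ∃ c : H98DH.Circ (n * b) e D S, c.lev = C.lev ∧ c.G = fun g z => C.G g (unfl z) := by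
  refine ⟨⟨C.lev, fun g z => C.G g (unfl z), C.pos, C.le, ?_⟩, rfl, rfl⟩
  intro g hg
  obtain ⟨H, hH, hx⟩ := C.or g hg
  refine ⟨{h' | ∃ h ∈ H, h' = fun z => h (unfl z)}, ?_, ?_⟩
  · rintro _ ⟨h, hh, rfl⟩
    exact isPar_bridge (hH h hh)
  · intro z
    rw [hx (unfl z)]
    constructor
    · rintro ⟨h, hh, h1⟩
      exact ⟨_, ⟨h, hh, rfl⟩, h1⟩
    · rintro ⟨_, ⟨h, hh, rfl⟩, h1⟩
      exact ⟨h, hh, h1⟩

private theorem Main_prod {N c d : ℕ} (F : Fin c → (Fin N → ZMod 2) → ZMod 2) (hF : ∀ i, F i ∈ Pol N d) (I : Finset (Fin c)) :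
    (∏ i ∈ I, F i) ∈ Pol N (I.card * d) := by
  induction I using Finset.induction_on with
  | empty =>
    rw [Finset.prod_empty]
    exact const_mem 1
  | insert i I hi ih =>
    rw [Finset.prod_insert hi, Finset.card_insert_of_notMem hi]
    have h1 : (I.card + 1) * d = d + I.card * d := by ring
    rw [h1]
    exact Pol_mul (hF i) ih

/-- the approximant of a line -/
theorem line_approx {n b e D S s c m : ℕ} (C : Circuit (Fin n × Fin b) e D S) {L : Set (Pt (Fin n × Fin b))}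
    (hL : C.Defines s c L) (ap : ℕ → (Fin (n * b) → ZMod 2) → ZMod 2) (hap : ∀ g < S, ap g ∈ Pol (n * b) m) (hsm : s ≤ m) :
    ∃ a ∈ Pol (n * b) (c * m), ∀ z, (∀ g < S, C.G g (unfl z) = ap g z) → indic {z | unfl z ∉ L} z = a z := by
  obtain ⟨F, β, hF, hx⟩ := hL
  choose p hp J hJ hpJ using hF
  obtain ⟨F', hF'⟩ : ∃ F' : Fin c → (Fin (n * b) → ZMod 2) → ZMod 2,
      ∀ i, F' i = (fun z => p i (unfl z)) + ∑ j ∈ J i, ap j := ⟨_, fun _ => rfl⟩
  have hF'm : ∀ i, F' i ∈ Pol (n * b) m := by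
    intro i
    rw [hF']
    exact Submodule.add_mem _ (Pol_mono hsm (DegLE_flat (hp i))) (Submodule.sum_mem _ fun j hj => hap j (hJ i j hj))
  obtain ⟨u, hu⟩ : ∃ u : ZMod 2 → (Fin (n * b) → ZMod 2) → ZMod 2, ∀ t z, u t z = t + 1 := ⟨fun t _ => t + 1, fun _ _ => rfl⟩
  have hum : ∀ t, u t ∈ Pol (n * b) m := by
    intro t
    have : u t = fun _ => t + 1 := funext fun z => hu t z
    rw [this]
    exact const_mem _
  refine ⟨∑ τ ∈ Finset.univ.filter (fun τ : Fin c → ZMod 2 => τ ∉ β), ∏ i, (F' i + u (τ i)), ?_, ?_⟩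
  · refine Submodule.sum_mem _ fun τ _ => ?_
    have h1 := Main_prod (fun i => F' i + u (τ i)) (fun i => Submodule.add_mem _ (hF'm i) (hum _)) Finset.univ
    rw [Finset.card_univ, Fintype.card_fin] at h1
    exact h1
  · intro z hz
    have hval : ∀ i, F' i z = F i (unfl z) := by
      intro i
      rw [hF', Pi.add_apply, Finset.sum_apply, hpJ i (unfl z)]
      congr 1
      exact Finset.sum_congr rfl fun j hj => (hz j (hJ i j hj)).symm
    have hterm : ∀ τ : Fin c → ZMod 2, (∏ i, (F' i + u (τ i))) z = if τ = fun i => F i (unfl z) then 1 else 0 := by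
      intro τ
      rw [Finset.prod_apply]
      have h01 : ∀ a b : ZMod 2, a + (b + 1) = if b = a then 1 else 0 := by decide
      have h2 : ∀ i, (F' i + u (τ i)) z = if τ i = F i (unfl z) then 1 else 0 := by
        intro i
        rw [Pi.add_apply, hval, hu, h01]
      rw [Finset.prod_congr rfl fun i _ => h2 i]
      rw [Finset.prod_boole]
      by_cases h3 : τ = fun i => F i (unfl z)
      · rw [if_pos h3, if_pos fun i _ => by rw [h3]]
      · rw [if_neg h3, if_neg fun h4 => h3 (funext fun i => h4 i (Finset.mem_univ i))]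
    rw [Finset.sum_apply, Finset.sum_congr rfl fun τ _ => hterm τ, Finset.sum_ite_eq']
    unfold indic
    have hmem : (z ∈ {z : Fin (n * b) → ZMod 2 | unfl z ∉ L}) ↔ (fun i => F i (unfl z)) ∉ β := by
      show unfl z ∉ L ↔ _
      rw [hx]
    have hmem2 : ((fun i => F i (unfl z)) ∈ Finset.univ.filter (fun τ : Fin c → ZMod 2 => τ ∉ β)) ↔
        (fun i => F i (unfl z)) ∉ β := by
      rw [Finset.mem_filter]
      exact ⟨fun h5 => h5.2, fun h5 => ⟨Finset.mem_univ _, h5⟩⟩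
    by_cases h4 : (fun i => F i (unfl z)) ∈ β
    · rw [if_neg (fun h5 => (hmem.1 h5) h4), if_neg (fun h5 => (hmem2.1 h5) h4)]
    · rw [if_pos (hmem.2 h4), if_pos (hmem2.2 h4)]

end H49LF
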