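import Pool.Agent.H49.LF.Stmt

/-!
Definitions used in the hand-in statement (helper49), continued from `Pool/Agent/H49/LF/Stmt.lean`: circuits with unbounded
fan-in OR gates and free parities, refutations by circuits.
-/

set_option autoImplicit false
open scoped Classical

namespace MajorityLifting

/-- The function `h` is the sum (mod 2) of a polynomial of degree at most `e` and of finitely many of the functions `G j`, `j ∈ I`. -/
def IsPar {V : Type} [Fintype V] (e : ℕ) (G : ℕ → Pt V → ZMod 2) (I : Set ℕ) (h : Pt V → ZMod 2) : Prop :=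
  ∃ p : Pt V → ZMod 2, DegLE e p ∧ ∃ J : Finset ℕ, (∀ j ∈ J, j ∈ I) ∧ ∀ x, h x = p x + ∑ j ∈ J, G j x

/-- A circuit with `S` gates in `D` levels: the gate `g < S` computes the disjunction of a set `H` (of any size) of functions,
each of which is a sum (mod 2) of gates of smaller level and of a polynomial of degree at most `e`. -/
structure Circuit (V : Type) [Fintype V] (e D S : ℕ) where
  lev : ℕ → ℕ
  G : ℕ → Pt V → ZMod 2
  pos : ∀ g < S, 1 ≤ lev g
  le : ∀ g < S, lev g ≤ D
  or : ∀ g < S, ∃ H : Set (Pt V → ZMod 2), (∀ h ∈ H, IsPar e G {j | j < S ∧ lev j < lev g} h) ∧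
    ∀ x, G g x = 1 ↔ ∃ h ∈ H, h x = 1

/-- The set `L` of points is defined by the circuit: membership is a Boolean function `β` of `c` functions, each of which is a sum
(mod 2) of gates and of a polynomial of degree at most `s`. -/
def Circuit.Defines {V : Type} [Fintype V] {e D S : ℕ} (C : Circuit V e D S) (s c : ℕ) (L : Set (Pt V)) : Prop :=
  ∃ (F : Fin c → Pt V → ZMod 2) (β : Set (Fin c → ZMod 2)), (∀ i, IsPar s C.G {j | j < S} (F i)) ∧
    ∀ x, x ∈ L ↔ (fun i => F i x) ∈ β

/-- The CNF `𝒞` in the variables `y_i` (`i < n`), composed with the majorities `y_i = maj (x_(i,1), …, x_(i,b))`, has a refutation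
by means of a circuit with `S` gates in `D` levels: a sequence of `N` lines defined by the circuit; every line (the set of points
where it is true) is implied by a composed clause or by at most `f` earlier lines; the last line is false everywhere. -/
def CircuitRefutes {n : ℕ} (b e D s c f : ℕ) (𝒞 : Set (Clause (Fin n))) (S : ℕ) : Prop :=
  ∃ (C : Circuit (Fin n × Fin b) e D S) (N : ℕ) (L : ℕ → Set (Pt (Fin n × Fin b))), 1 ≤ N ∧ L (N - 1) = ∅ ∧
    (∀ i < N, C.Defines s c (L i)) ∧
    ∀ i < N, (∃ K ∈ 𝒞, ∀ x : Pt (Fin n × Fin b), K.Holds (fun i => maj (fun j => x (i, j))) → x ∈ L i) ∨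
      ∃ J : Finset ℕ, J.card ≤ f ∧ (∀ j ∈ J, j < i) ∧ ∀ x, (∀ j ∈ J, x ∈ L j) → x ∈ L i

end MajorityLifting
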